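import Pool.Agent.Q75.SkI

/-!
# Shanks' conjecture in Cramér's random model: the exact second order terms

Cramér's model: a random set `A` of integers `≥ 3`; the events `n ∈ A` are independent and have
the probabilities `1 / log n`. As for the primes let `p(g)` (`shanks A g`) be the first element of
`A` that follows a run of at least `g` consecutive non-elements between two elements of `A`, and
let `p*(g)` (`firstGap A g`) be the first element of `A` which is followed by a gap of length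
exactly `g`. Almost surely both are defined for all large `g`, `log p(g) ~ log p*(g) ~ √g`
(Shanks' conjecture Q1 and its form for the gaps of exact length `g`), and

* `limsup (log p(g)  - √g - (1/4) log g) / log log g = 1/2`,
  `liminf (log p(g)  - √g) / log log g = -1/2`;
* `limsup (log p*(g) - √g - (1/2) log g) / log log g = 1/2`,
  `liminf (log p*(g) - √g) / log log g = -1/2`.
-/

set_option autoImplicit false

namespace Pool.Agent.Results.MP_926cc3_nt.AlmostSureShanks

open MeasureTheory Filter Topology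
open Pool.Agent.Q75.Sk

/-- Cramér's random model of the primes: `E n` is the event that `n` belongs to the random set. -/
structure CramerModel {Ω : Type} [MeasurableSpace Ω] (P : Measure Ω) (E : ℕ → Set Ω) : Prop where
  meas : ∀ n, MeasurableSet (E n)
  small : ∀ n, n < 3 → E n = ∅
  prob : ∀ n, 3 ≤ n → P (E n) = ENNReal.ofReal (1 / Real.log n)
  indep : ProbabilityTheory.iIndepSet E P

/-- `p < q` are consecutive elements of `A`. -/
def Consecutive (A : Set ℕ) (p q : ℕ) : Prop :=
  p ∈ A ∧ q ∈ A ∧ p < q ∧ ∀ n, p < n → n < q → n ∉ A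

/-- Shanks' function of the set `A`: the least element `q` of `A` such that between the preceding
element `p` of `A` and `q` there are at least `g` integers. -/
noncomputable def shanks (A : Set ℕ) (g : ℕ) : ℕ :=
  sInf {q | ∃ p, Consecutive A p q ∧ g ≤ q - p - 1}

/-- the least element of `A` that is followed by a gap of length exactly `g` -/
noncomputable def firstGap (A : Set ℕ) (g : ℕ) : ℕ := sInf {p | Consecutive A p (p + g)}

section

variable {Ω : Type} [MeasurableSpace Ω] {P : Measure Ω} {E : ℕ → Set Ω}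

lemma model_mod [IsProbabilityMeasure P] (h : CramerModel P E) : Mod P E pc where
  meas := h.meas
  prob n := by
    by_cases hn : n < 3
    · rw [h.small n hn]; unfold pc; rw [if_pos hn]; simp
    · unfold Measure.real pc
      rw [h.prob n (by omega), if_neg hn, ENNReal.toReal_ofReal]
      have := log_ge (n := n) (by omega)
      positivity
  indep := h.indep

variable {ω : Ω} (hs : ∀ n, n < 3 → E n = ∅)

include hs in
lemma ge3 {n : ℕ} (h : ω ∈ E n) : 3 ≤ n := by
  by_contra hcon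
  rw [hs n (by omega)] at h
  exact h

include hs in
lemma k1 {g X q : ℕ} (h : ω ∈ non (run E g) (g + 3) X)
    (hq : q ∈ {q | ∃ p, Consecutive {n | ω ∈ E n} p q ∧ g ≤ q - p - 1}) : X ≤ q := by
  obtain ⟨p, ⟨h1, h2, h3, h4⟩, h5⟩ := hq
  have h6 := ge3 hs h1
  by_contra hcon
  unfold non at h
  simp only [Set.mem_iInter, Finset.mem_Ico, Set.mem_compl_iff] at h
  refine h q ⟨by omega, by omega⟩ ⟨?_, h2⟩
  unfold empt
  simp only [Set.mem_iInter, Finset.mem_Ico, Set.mem_compl_iff]
  intro j hj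
  exact h4 j (by omega) hj.2

omit [MeasurableSpace Ω] in
lemma k2 {g X a : ℕ} (h : ω ∉ non (run E g) (g + 3) X) (ha : ω ∈ E a) (hag : a ≤ g) :
    ∃ p q, Consecutive {n | ω ∈ E n} p q ∧ g ≤ q - p - 1 ∧ q < X := by
  unfold non at h
  simp only [Set.mem_iInter, Finset.mem_Ico, Set.mem_compl_iff, not_forall, not_not] at h
  obtain ⟨q, hq, h1, h2⟩ := h
  unfold empt at h1
  simp only [Set.mem_iInter, Finset.mem_Ico, Set.mem_compl_iff] at h1
  -- the greatest element below q
  classical
  have h3 : ∃ n, n < q ∧ ω ∈ E (q - 1 - n) := by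
    refine ⟨q - 1 - a, by omega, ?_⟩
    have : q - 1 - (q - 1 - a) = a := by omega
    rw [this]; exact ha
  have h4 := Nat.find_spec h3
  set m := Nat.find h3 with hm
  refine ⟨q - 1 - m, q, ⟨h4.2, h2, by omega, fun n hn1 hn2 hn3 => ?_⟩, ?_, hq.2⟩
  · have h5 := Nat.find_min' h3 (m := q - 1 - n) ⟨by omega, by
      have : q - 1 - (q - 1 - n) = n := by omega
      rw [this]; exact hn3⟩
    omega
  · by_contra hcon
    exact h1 (q - 1 - m) ⟨by omega, by omega⟩ h4.2

include hs in
lemma k3 {g X p : ℕ} (h : ω ∈ non (exa E g) (g + 3) X)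
    (hp : p ∈ {p | Consecutive {n | ω ∈ E n} p (p + g)}) : X ≤ p + g := by
  obtain ⟨h1, h2, h3, h4⟩ := hp
  have h6 := ge3 hs h1
  by_contra hcon
  unfold non at h
  simp only [Set.mem_iInter, Finset.mem_Ico, Set.mem_compl_iff] at h
  refine h (p + g) ⟨by omega, by omega⟩ ⟨?_, ?_, h2⟩
  · rw [Nat.add_sub_cancel]; exact h1
  · unfold empt
    simp only [Set.mem_iInter, Finset.mem_Ico, Set.mem_compl_iff]
    intro j hj
    exact h4 j (by omega) hj.2

omit [MeasurableSpace Ω] in
lemma k4 {g X : ℕ} (hg : 1 ≤ g) (h : ω ∉ non (exa E g) (g + 3) X) :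
    ∃ p, Consecutive {n | ω ∈ E n} p (p + g) ∧ p + g < X := by
  unfold non at h
  simp only [Set.mem_iInter, Finset.mem_Ico, Set.mem_compl_iff, not_forall, not_not] at h
  obtain ⟨q, hq, h1, h2, h3⟩ := h
  unfold empt at h2
  simp only [Set.mem_iInter, Finset.mem_Ico, Set.mem_compl_iff] at h2
  refine ⟨q - g, ⟨h1, ?_, by omega, fun n hn1 hn2 => h2 n ⟨by omega, by omega⟩⟩, by omega⟩
  rw [Nat.sub_add_cancel (by omega)]
  exact h3

end

/-- the distribution of the indicator of `n ∈ A` -/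
noncomputable def coin (n : ℕ) : Measure Bool :=
  ENNReal.ofReal (pc n) • Measure.dirac true + ENNReal.ofReal (1 - pc n) • Measure.dirac false

instance (n : ℕ) : IsProbabilityMeasure (coin n) := by
  constructor
  unfold coin
  have h1 := pc_nonneg n
  have h2 := pc_lt n
  simp only [Measure.coe_add, Measure.coe_smul, Pi.add_apply, Pi.smul_apply, measure_univ,
    smul_eq_mul, mul_one]
  rw [← ENNReal.ofReal_add h1 (by linarith)]
  simp

/-- Cramér's model exists. -/
theorem model_exists : ∃ (Ω : Type) (_ : MeasurableSpace Ω) (P : Measure Ω)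
    (_ : IsProbabilityMeasure P) (E : ℕ → Set Ω), CramerModel P E := by
  classical
  let t : ℕ → Set Bool := fun n => if 3 ≤ n then {true} else ∅
  have ht : ∀ n, MeasurableSet (t n) := fun n => MeasurableSet.of_discrete
  let E : ℕ → Set (ℕ → Bool) := fun n => (fun ω => ω n) ⁻¹' t n
  let P : Measure (ℕ → Bool) := Measure.infinitePi coin
  have hE : ∀ n, MeasurableSet (E n) := fun n => (measurable_pi_apply n) (ht n)
  have hpi : ∀ s : Finset ℕ, P (⋂ i ∈ s, E i) = ∏ i ∈ s, coin i (t i) := by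
    intro s
    have h1 : (⋂ i ∈ s, E i) = Set.pi (s : Set ℕ) t := by
      ext ω; simp [E, Set.mem_pi]
    rw [h1]
    exact Measure.infinitePi_pi coin fun i _ => ht i
  have h1 : ∀ n, P (E n) = coin n (t n) := by
    intro n
    have := hpi {n}
    simpa using this
  refine ⟨ℕ → Bool, inferInstance, P, inferInstance, E, hE, fun n hn => ?_, fun n hn => ?_, ?_⟩
  · show (fun ω : ℕ → Bool => ω n) ⁻¹' t n = ∅
    simp [t, show ¬ 3 ≤ n by omega]
  · rw [h1 n]
    simp [t, hn, coin, pc_eq hn]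
  · rw [ProbabilityTheory.iIndepSet_iff_meas_biInter hE]
    intro s
    rw [hpi s]
    exact Finset.prod_congr rfl fun i _ => (h1 i).symm

/-- a countable family of `ε` -/
lemma eps_ex {ε : ℝ} (hε : 0 < ε) : ∃ m : ℕ, 1 / ((m : ℝ) + 2) ≤ ε := by
  obtain ⟨m, hm⟩ := exists_nat_one_div_lt hε
  refine ⟨m, le_trans ?_ hm.le⟩
  apply one_div_le_one_div_of_le (by positivity)
  linarith

lemma vv_le {c d d' : ℝ} {g : ℕ} (h : d ≤ d') (hl : 0 ≤ Real.log (Real.log (g : ℝ))) :
    vv c d g ≤ vv c d' g := by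
  unfold vv
  have := mul_le_mul_of_nonneg_right h hl
  linarith

theorem main (Ω : Type) [MeasurableSpace Ω] (P : Measure Ω) [IsProbabilityMeasure P]
    (E : ℕ → Set Ω) (hE : CramerModel P E) :
    ∀ᵐ ω ∂P, ∀ A : Set ℕ, A = {n | ω ∈ E n} →
      (∀ᶠ g : ℕ in atTop, (∃ p q, Consecutive A p q ∧ g ≤ q - p - 1) ∧
        ∃ p, Consecutive A p (p + g)) ∧
      (Tendsto (fun g : ℕ => Real.log (shanks A g) / Real.sqrt g) atTop (𝓝 1) ∧
        limsup (fun g : ℕ => (((Real.log (shanks A g) - Real.sqrt g - 1 / 4 * Real.log g) /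
          Real.log (Real.log g) : ℝ) : EReal)) atTop = ((1 / 2 : ℝ) : EReal) ∧
        liminf (fun g : ℕ => (((Real.log (shanks A g) - Real.sqrt g) /
          Real.log (Real.log g) : ℝ) : EReal)) atTop = ((-1 / 2 : ℝ) : EReal)) ∧
      (Tendsto (fun g : ℕ => Real.log (firstGap A g) / Real.sqrt g) atTop (𝓝 1) ∧
        limsup (fun g : ℕ => (((Real.log (firstGap A g) - Real.sqrt g - 1 / 2 * Real.log g) /
          Real.log (Real.log g) : ℝ) : EReal)) atTop = ((1 / 2 : ℝ) : EReal) ∧
        liminf (fun g : ℕ => (((Real.log (firstGap A g) - Real.sqrt g) /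
          Real.log (Real.log g) : ℝ) : EReal)) atTop = ((-1 / 2 : ℝ) : EReal)) := by
  have hM := model_mod hE
  have hR := knd_run hM
  have hX := knd_exa hM
  have e1 : ∀ m : ℕ, (0 : ℝ) < 1 / ((m : ℝ) + 2) := fun m => by positivity
  have e2 : ∀ m : ℕ, 1 / ((m : ℝ) + 2) ≤ (1 / 2 : ℝ) := fun m =>
    one_div_le_one_div_of_le (by norm_num) (by linarith [(Nat.cast_nonneg m : (0 : ℝ) ≤ m)])
  have a1 := ae_all_iff.mpr fun m : ℕ => env_up hM hR (by norm_num) (e1 m)
  have a2 := ae_all_iff.mpr fun m : ℕ => env_up hM hX (by norm_num) (e1 m)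
  have b1 := ae_all_iff.mpr fun m : ℕ => env_lo_sq hR (e1 m)
  have b2 := ae_all_iff.mpr fun m : ℕ => env_lo_exa hX (e1 m)
  have c1 := ae_all_iff.mpr fun m : ℕ => env_up_io hM hR (by norm_num) (e1 m) (e2 m)
  have c2 := ae_all_iff.mpr fun m : ℕ => env_up_io hM hX (by norm_num) (e1 m) (e2 m)
  have d1 := env_lo_io hM
  filter_upwards [a1, a2, b1, b2, c1, c2, d1] with ω a1 a2 b1 b2 c1 c2 d1
  rintro A rfl
  have hsm := hE.small
  simp only [Nat.cast_one] at a1 c1
  -- an element
  obtain ⟨a, ha⟩ : ∃ a, ω ∈ E a := by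
    obtain ⟨g, hg1, hg2⟩ := ((a2 0).and (eventually_ge_atTop 1)).exists
    obtain ⟨p, hp, -⟩ := k4 hg2 hg1
    exact ⟨p, hp.1⟩
  have hSne : ∀ᶠ g : ℕ in atTop, ∃ p q, Consecutive {n | ω ∈ E n} p q ∧ g ≤ q - p - 1 := by
    filter_upwards [a1 0, eventually_ge_atTop a] with g h1 h2
    obtain ⟨p, q, h3, h4, -⟩ := k2 h1 ha h2
    exact ⟨p, q, h3, h4⟩
  have hFne : ∀ᶠ g : ℕ in atTop, ∃ p, Consecutive {n | ω ∈ E n} p (p + g) := by
    filter_upwards [a2 0, eventually_ge_atTop 1] with g h1 h2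
    obtain ⟨p, h3, -⟩ := k4 h2 h1
    exact ⟨p, h3⟩
  have hll := tendsto_loglog_nat.eventually_ge_atTop 0
  have hFmem : ∀ {g : ℕ}, (∃ p, Consecutive {n | ω ∈ E n} p (p + g)) →
      Consecutive {n | ω ∈ E n} (firstGap {n | ω ∈ E n} g) (firstGap {n | ω ∈ E n} g + g) :=
    fun {g} h => Nat.sInf_mem (s := {p | Consecutive {n | ω ∈ E n} p (p + g)}) h
  have hSmem : ∀ {g : ℕ}, (∃ p q, Consecutive {n | ω ∈ E n} p q ∧ g ≤ q - p - 1) →
      shanks {n | ω ∈ E n} g ∈ {q | ∃ p, Consecutive {n | ω ∈ E n} p q ∧ g ≤ q - p - 1} := by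
    rintro g ⟨p, q, h⟩
    exact Nat.sInf_mem (s := {q | ∃ p, Consecutive {n | ω ∈ E n} p q ∧ g ≤ q - p - 1}) ⟨q, p, h⟩
  refine ⟨hSne.and hFne, ?_, ?_⟩
  · -- Shanks' function
    refine concl_of (c := 1 / 4) (F := fun g => Real.log (shanks {n | ω ∈ E n} g))
      (by norm_num) (by norm_num) ?_ ?_ ?_ ?_
    · intro ε hε
      obtain ⟨m, hm⟩ := eps_ex hε
      filter_upwards [a1 m, eventually_ge_atTop a, big_ev, hll] with g h1 h2 hB hl
      obtain ⟨p, q, h3, h4, h5⟩ := k2 h1 ha h2
      have h6 : shanks {n | ω ∈ E n} g ≤ q := Nat.sInf_le ⟨p, h3, h4⟩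
      have h7 := hSmem ⟨p, q, h3, h4⟩
      obtain ⟨p', h8, -⟩ := h7
      have h9 := ge3 hsm h8.2.1
      have h10 := log_upper hB (m := shanks {n | ω ∈ E n} g) (by omega) (h6.trans h5.le)
      refine h10.trans ?_
      have := vv_le (c := 1 / 4) (g := g) (d := 1 / 2 + 1 / ((m : ℝ) + 2)) (d' := 1 / 2 + ε)
        (by linarith) hl
      norm_num at this ⊢
      linarith
    · intro ε hε
      obtain ⟨m, hm⟩ := eps_ex hε
      have t : Tendsto Nat.sqrt atTop atTop := by
        refine tendsto_atTop.mpr fun b => ?_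
        filter_upwards [eventually_ge_atTop (b * b)] with g hg
        exact Nat.le_sqrt.mpr hg
      have h0 : Tendsto (fun k : ℕ => k ^ 2) atTop atTop := tendsto_pow_atTop (by norm_num)
      have hvs := vv_small (c := 0) (d := -(1 / 2 + 1 / ((m : ℝ) + 2))) le_rfl (by norm_num)
      filter_upwards [t.eventually (b1 m), (h0.comp t).eventually big_ev, (h0.comp t).eventually hvs,
        hSne, hll, (h0.comp t).eventually (tendsto_log_nat.eventually_ge_atTop 1),
        t.eventually (eventually_ge_atTop 1)] with g h1 hB hv h2 hl hl1 hk1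
      have h3 := hSmem h2
      obtain ⟨p, h4, h5⟩ := h3
      have hkg : Nat.sqrt g ^ 2 ≤ g := Nat.sqrt_le' g
      have h6 := k1 hsm h1 (q := shanks {n | ω ∈ E n} g) ⟨p, h4, by omega⟩
      simp only [Function.comp] at hB hv hl1
      have h7 := log_lower hB hv (m := shanks {n | ω ∈ E n} g) (by omega)
      have hk0 : (0 : ℝ) < (Nat.sqrt g : ℝ) := by exact_mod_cast hk1
      have h8 : Real.sqrt ((Nat.sqrt g ^ 2 : ℕ) : ℝ) = Nat.sqrt g := by
        push_cast; exact Real.sqrt_sq hk0.le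
      have h9 : Real.sqrt g ≤ (Nat.sqrt g : ℝ) + 1 := by
        rw [Real.sqrt_le_left (by positivity)]
        have := (Nat.lt_succ_sqrt' g).le
        exact_mod_cast this
      rw [h8] at h7
      -- compare the double logarithms
      have h10 : ((Nat.sqrt g ^ 2 : ℕ) : ℝ) ≤ g := by exact_mod_cast hkg
      have h11 : Real.log ((Nat.sqrt g ^ 2 : ℕ) : ℝ) ≤ Real.log g :=
        Real.log_le_log (by positivity) h10
      have h12 : Real.log (Real.log ((Nat.sqrt g ^ 2 : ℕ) : ℝ)) ≤ Real.log (Real.log g) :=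
        Real.log_le_log (by linarith) h11
      have h13 : vv 0 (-(1 / 2 + ε)) g ≤
          vv 0 (-(1 / 2 + 1 / ((m : ℝ) + 2))) (Nat.sqrt g ^ 2) := by
        unfold vv
        have h14 := Real.log_nonneg hl1
        have h15 : (1 / 2 + 1 / ((m : ℝ) + 2)) *
            Real.log (Real.log ((Nat.sqrt g ^ 2 : ℕ) : ℝ)) ≤
            (1 / 2 + ε) * Real.log (Real.log g) :=
          mul_le_mul (by linarith) h12 h14 (by linarith)
        linarith
      show Real.sqrt g + vv 0 (-(1 / 2 + ε)) g - 2 ≤ Real.log (shanks {n | ω ∈ E n} g)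
      linarith
    · intro ε hε hε2
      obtain ⟨m, hm⟩ := eps_ex hε
      have hvs := vv_small (c := 1 / 4) (d := 1 / 2 - 1 / ((m : ℝ) + 2)) (by norm_num) (by norm_num)
      refine ((c1 m).and_eventually (hSne.and (hll.and (hvs.and big_ev)))).mono fun g hg => ?_
      obtain ⟨h1, h2, hl, hv, hB⟩ := hg
      have h3 := hSmem h2
      have h6 := k1 hsm h1 h3
      have h7 := log_lower hB hv (m := shanks {n | ω ∈ E n} g) (by omega)
      have h8 := vv_le (c := 1 / 4) (g := g) (d := 1 / 2 - ε) (d' := 1 / 2 - 1 / ((m : ℝ) + 2))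
        (by linarith) hl
      show Real.sqrt g + vv (1 / 4) (1 / 2 - ε) g - 1 ≤ Real.log (shanks {n | ω ∈ E n} g)
      linarith
    · refine (d1.and_eventually ((eventually_ge_atTop a).and big_ev)).mono fun g hg => ?_
      obtain ⟨h1, h2, hB⟩ := hg
      obtain ⟨p, q, h3, h4, h5⟩ := k2 h1 ha h2
      have h6 : shanks {n | ω ∈ E n} g ≤ q := Nat.sInf_le ⟨p, h3, h4⟩
      have h7 := hSmem ⟨p, q, h3, h4⟩
      obtain ⟨p', h8, -⟩ := h7
      have h9 := ge3 hsm h8.2.1
      exact log_upper hB (m := shanks {n | ω ∈ E n} g) (by omega) (h6.trans h5.le)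
  · -- exact gaps
    refine concl_of (c := 1 / 2) (F := fun g => Real.log (firstGap {n | ω ∈ E n} g))
      (by norm_num) (by norm_num) ?_ ?_ ?_ ?_
    · intro ε hε
      obtain ⟨m, hm⟩ := eps_ex hε
      filter_upwards [a2 m, eventually_ge_atTop 1, big_ev, hll] with g h1 h2 hB hl
      obtain ⟨p, h3, h5⟩ := k4 h2 h1
      have h6 : firstGap {n | ω ∈ E n} g ≤ p := Nat.sInf_le h3
      have h8 := hFmem ⟨p, h3⟩
      have h9 := ge3 hsm h8.1
      have h10 := log_upper hB (m := firstGap {n | ω ∈ E n} g) (by omega)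
        (h6.trans (le_trans (Nat.le_add_right p g) h5.le))
      refine h10.trans ?_
      have h11 : vv (((2 : ℕ) : ℝ) / 4) (1 / 2 + 1 / ((m : ℝ) + 2)) g =
          vv (1 / 2) (1 / 2 + 1 / ((m : ℝ) + 2)) g := by norm_num
      rw [h11]
      have := vv_le (c := 1 / 2) (g := g) (d := 1 / 2 + 1 / ((m : ℝ) + 2)) (d' := 1 / 2 + ε)
        (by linarith) hl
      linarith
    · intro ε hε
      obtain ⟨m, hm⟩ := eps_ex hε
      have hvs := vv_small (c := 0) (d := -(1 / 2 + 1 / ((m : ℝ) + 2))) le_rfl (by norm_num)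
      filter_upwards [b2 m, big_ev, hvs, hFne, hll] with g h1 hB hv h2 hl
      have h3 := hFmem h2
      have h6 := k3 hsm h1 h3
      have h7 := log_lower hB hv (m := firstGap {n | ω ∈ E n} g) h6
      have h8 := vv_le (c := 0) (g := g) (d := -(1 / 2 + ε)) (d' := -(1 / 2 + 1 / ((m : ℝ) + 2)))
        (by linarith) hl
      show Real.sqrt g + vv 0 (-(1 / 2 + ε)) g - 2 ≤ Real.log (firstGap {n | ω ∈ E n} g)
      linarith
    · intro ε hε hε2
      obtain ⟨m, hm⟩ := eps_ex hε
      have hvs := vv_small (c := ((2 : ℕ) : ℝ) / 4) (d := 1 / 2 - 1 / ((m : ℝ) + 2))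
        (by norm_num) (by norm_num)
      refine ((c2 m).and_eventually (hFne.and (hll.and (hvs.and big_ev)))).mono fun g hg => ?_
      obtain ⟨h1, h2, hl, hv, hB⟩ := hg
      have h3 := hFmem h2
      have h6 := k3 hsm h1 h3
      have h7 := log_lower hB hv (m := firstGap {n | ω ∈ E n} g) h6
      have h11 : vv (((2 : ℕ) : ℝ) / 4) (1 / 2 - 1 / ((m : ℝ) + 2)) g =
          vv (1 / 2) (1 / 2 - 1 / ((m : ℝ) + 2)) g := by norm_num
      rw [h11] at h7
      have h8 := vv_le (c := 1 / 2) (g := g) (d := 1 / 2 - ε) (d' := 1 / 2 - 1 / ((m : ℝ) + 2))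
        (by linarith) hl
      show Real.sqrt g + vv (1 / 2) (1 / 2 - ε) g - 1 ≤ Real.log (firstGap {n | ω ∈ E n} g)
      linarith
    · rw [frequently_atTop]
      intro N
      obtain ⟨N1, hN1⟩ := eventually_atTop.mp (tendsto_log_nat.eventually_ge_atTop 1)
      obtain ⟨N2, hN2⟩ := eventually_atTop.mp big_ev
      obtain ⟨g, hg, h1⟩ := (frequently_atTop.mp d1) (max (max N a) (max (max N1 1) N2))
      have hgN : N ≤ g := by omega
      have hga : a ≤ g := by omega
      obtain ⟨p, q, h3, h4, h5⟩ := k2 h1 ha hga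
      have hB := hN2 g (by omega)
      have hpq := h3.2.2.1
      have h6 : Consecutive {n | ω ∈ E n} p (p + (q - p)) := by
        have : p + (q - p) = q := by omega
        rw [this]; exact h3
      have h7 : firstGap {n | ω ∈ E n} (q - p) ≤ p := Nat.sInf_le h6
      have h8 := hFmem ⟨p, h6⟩
      have h9 := ge3 hsm h8.1
      refine ⟨q - p, by omega, ?_⟩
      have h10 := log_upper hB (m := firstGap {n | ω ∈ E n} (q - p)) (by omega)
        (h7.trans (hpq.le.trans h5.le))
      exact h10.trans (sqrt_ll_mono (by omega) (hN1 g (by omega)) (by omega))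

/-- Cramér's model exists, and in every such model almost surely: `p(g)` and `p*(g)` are defined
for all large `g`, `log p(g) / √g → 1` and `log p*(g) / √g → 1`, and the exact second order terms
are as stated. -/
theorem result :
    (∃ (Ω : Type) (_ : MeasurableSpace Ω) (P : Measure Ω) (_ : IsProbabilityMeasure P)
      (E : ℕ → Set Ω), CramerModel P E) ∧
    ∀ (Ω : Type) [MeasurableSpace Ω] (P : Measure Ω) [IsProbabilityMeasure P]
      (E : ℕ → Set Ω), CramerModel P E →
      ∀ᵐ ω ∂P, ∀ A : Set ℕ, A = {n | ω ∈ E n} →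
        (∀ᶠ g : ℕ in atTop, (∃ p q, Consecutive A p q ∧ g ≤ q - p - 1) ∧
          ∃ p, Consecutive A p (p + g)) ∧
        (Tendsto (fun g : ℕ => Real.log (shanks A g) / Real.sqrt g) atTop (𝓝 1) ∧
          limsup (fun g : ℕ => (((Real.log (shanks A g) - Real.sqrt g - 1 / 4 * Real.log g) /
            Real.log (Real.log g) : ℝ) : EReal)) atTop = ((1 / 2 : ℝ) : EReal) ∧
          liminf (fun g : ℕ => (((Real.log (shanks A g) - Real.sqrt g) /
            Real.log (Real.log g) : ℝ) : EReal)) atTop = ((-1 / 2 : ℝ) : EReal)) ∧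
        (Tendsto (fun g : ℕ => Real.log (firstGap A g) / Real.sqrt g) atTop (𝓝 1) ∧
          limsup (fun g : ℕ => (((Real.log (firstGap A g) - Real.sqrt g - 1 / 2 * Real.log g) /
            Real.log (Real.log g) : ℝ) : EReal)) atTop = ((1 / 2 : ℝ) : EReal) ∧
          liminf (fun g : ℕ => (((Real.log (firstGap A g) - Real.sqrt g) /
            Real.log (Real.log g) : ℝ) : EReal)) atTop = ((-1 / 2 : ℝ) : EReal)) :=
  ⟨model_exists, fun Ω _ P _ E hE => main Ω P E hE⟩

end Pool.Agent.Results.MP_926cc3_nt.AlmostSureShanks
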