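import Pool.Agent.Q117.RP.TwoSided
import Pool.Agent.H226R2.ShanksGap

/-!
# Every sequence of run lengths occurs early

The question compares `log p(g)` with `√g`, where `p(g)` is the first prime after a run of AT LEAST `g` composite numbers. For runs of EXACTLY
`g` composite numbers no upper bound at all is known (it is not known that each odd `g` occurs). We replace all but one of the primes which
bound the runs by almost primes (at most `t` prime factors, all `> X ^ (1/t)`), and the composite numbers by integers with a prime factor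
`≤ X ^ (1/log log X)`.

With `Y(G) = G (log log G)² / ((log G)² log log log G)`, which up to a constant factor is the bound for `log p(g)` given by the largest gaps
between primes known to occur: for every `k` there are `t ≥ 1` and `C > 0` such that EVERY sequence `g_1, …, g_k` of run lengths for which the
`k + 1` ends of the runs miss a residue class modulo every prime, with `G = g_1 + … + g_k` large, occurs as the sequence of lengths of `k`
successive runs, with a prime `p`, `log p ≤ C Y(G)`, at ANY prescribed one of the `k + 1` ends, all the other integers at a distance at most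
`3 G` from `p` having a prime factor `≤ p ^ (1/log log p)`. For all `X` with `log X ≥ C Y(G)` there are at least `X ^ (98/100)` such places
with the prime in `(X, 3X]`.

Libraries: `Pool.Agent.Q117.GP` (covering which keeps an arbitrary admissible set), `Pool.Agent.Q117.RP` (lower bound sieve with the repelling
weights), resting on the starting files `H312R2.RG`, `H378R2`, `H398R2`, `TH423`; `H226R2.ShanksGap` (inversion of the iterated logarithms).
-/

set_option autoImplicit false

namespace Pool.Agent.Results.MP_926cc3_nt.ExactRunsEarly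

open Finset Filter
open Pool.Agent.Q117.GP (rough_omega Adm)
open Pool.Agent.Q117.RP
open Pool.Agent.H256R2.SC (ff)

/-- `G (log log G)² / ((log G)² log log log G)` -/
noncomputable def Y (G : ℝ) : ℝ :=
  G * (Real.log (Real.log G)) ^ 2 / ((Real.log G) ^ 2 * Real.log (Real.log (Real.log G)))

/-- the `j`-th end of the runs with the lengths `g 0, g 1, …`, counted from the `0`-th end -/
def ends (g : ℕ → ℕ) (j : ℕ) : ℕ := ∑ i ∈ range j, (g i + 1)

/-- the `k + 1` ends miss a residue class modulo every prime -/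
def Admissible (g : ℕ → ℕ) (k : ℕ) : Prop := ∀ p : ℕ, p.Prime → ∃ r : ℕ, ∀ j ≤ k, ¬ ends g j ≡ r [MOD p]

/-- at most `t` prime factors (with multiplicity), all greater than `X ^ (1/t)` -/
def AlmostPrime (t : ℕ) (X : ℝ) (m : ℕ) : Prop :=
  0 < m ∧ m.primeFactorsList.length ≤ t ∧ ∀ q : ℕ, q.Prime → q ∣ m → X ^ (1 / (t : ℝ)) < q

/-- `k` successive runs of the exact lengths `g 0, …, g (k-1)` start after `n`: the ends `n + ends g j`, `j ≤ k`, are almost primes, and all
other integers at a distance at most `D` from the `i`-th end have a prime factor `≤ X ^ (1/log log X)` -/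
def Runs (t : ℕ) (X D : ℝ) (g : ℕ → ℕ) (k i n : ℕ) : Prop :=
  (∀ j ≤ k, AlmostPrime t X (n + ends g j)) ∧
    ∀ m : ℕ, |(m : ℝ) - (n + ends g i : ℕ)| ≤ D → (∀ j ≤ k, m ≠ n + ends g j) →
      ∃ q : ℕ, q.Prime ∧ (q : ℝ) ≤ X ^ (1 / Real.log (Real.log X)) ∧ q ∣ m

lemma ends_strictMono (g : ℕ → ℕ) : StrictMono (ends g) := by
  apply strictMono_nat_of_lt_succ
  intro j
  unfold ends
  rw [sum_range_succ]
  omega

lemma ends_le (g : ℕ → ℕ) (k : ℕ) (hg : ∀ j < k, 1 ≤ g j) (i : ℕ) (hi : i ≤ k) : ends g i ≤ 2 * ∑ j ∈ range k, g j := by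
  have h1 : ends g i ≤ ends g k := (ends_strictMono g).monotone hi
  refine h1.trans ?_
  unfold ends
  rw [mul_sum]
  apply sum_le_sum
  intro j hj
  have := hg j (mem_range.1 hj)
  omega

lemma adm_iff {g : ℕ → ℕ} {k : ℕ} (h : Admissible g k) : Adm ((range (k + 1)).image (ends g)) := by
  classical
  intro p hp
  obtain ⟨r, hr⟩ := h p hp
  refine ⟨r * (p - 1), ?_⟩
  intro x hx hd
  rw [mem_image] at hx
  obtain ⟨j, hj, rfl⟩ := hx
  apply hr j (by rw [mem_range] at hj; omega)
  have h1 : r * (p - 1) + ends g j ≡ r * (p - 1) + r [MOD p] := by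
    have h2 : r * (p - 1) + r = r * p := by
      obtain ⟨q, rfl⟩ : ∃ q, p = q + 1 := ⟨p - 1, by have := hp.pos; omega⟩
      rw [Nat.add_sub_cancel]
      ring
    rw [h2]
    exact ((Nat.modEq_zero_iff_dvd).2 hd).trans ((Nat.modEq_zero_iff_dvd).2 (dvd_mul_left p r)).symm
  exact Nat.ModEq.add_left_cancel' _ h1

/-- `f` is increasing in `log X` -/
lemma ff_exp_mono {y z : ℝ} (hy : Real.exp (Real.exp (Real.exp 1)) ≤ y) (hyz : y ≤ z) : ff (Real.exp y) ≤ ff (Real.exp z) := by
  unfold ff
  rw [Real.log_exp, Real.log_exp]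
  have p0 : 0 < y := lt_of_lt_of_le (Real.exp_pos _) hy
  have q0 : 0 < z := by linarith
  have p1 : Real.exp (Real.exp 1) ≤ Real.log y := (Real.le_log_iff_exp_le p0).2 hy
  have p1' : 0 < Real.log y := lt_of_lt_of_le (Real.exp_pos _) p1
  have p2 : Real.exp 1 ≤ Real.log (Real.log y) := (Real.le_log_iff_exp_le p1').2 p1
  have p2' : 0 < Real.log (Real.log y) := lt_of_lt_of_le (Real.exp_pos _) p2
  have p3 : 1 ≤ Real.log (Real.log (Real.log y)) := (Real.le_log_iff_exp_le p2').2 p2
  have h1 : Real.log y ≤ Real.log z := Real.log_le_log p0 hyz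
  have h2 : Real.log (Real.log y) ≤ Real.log (Real.log z) := Real.log_le_log p1' h1
  have h3 : Real.log (Real.log (Real.log y)) ≤ Real.log (Real.log (Real.log z)) := Real.log_le_log p2' h2
  have hee : Real.exp 1 ≤ Real.exp (Real.exp 1) := by
    apply Real.exp_le_exp.2
    have := Real.add_one_le_exp (1 : ℝ)
    linarith
  have hlog := Real.log_div_self_antitoneOn (show Real.exp 1 ≤ Real.log y from hee.trans p1) (show Real.exp 1 ≤ Real.log z by linarith) h1
  simp only at hlog
  have z1 : 0 < Real.log z := by linarith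
  have z2 : 0 < Real.log (Real.log z) := by linarith
  have h4 : Real.log y / Real.log (Real.log y) ≤ Real.log z / Real.log (Real.log z) := by
    rw [div_le_div_iff₀ z1 p1'] at hlog
    rw [div_le_div_iff₀ p2' z2]
    linarith
  have e1 : ∀ a b c d : ℝ, a * b ^ 2 * c / d ^ 2 = a * c * (b / d) ^ 2 := by
    intro a b c d
    rw [div_pow]
    ring
  rw [e1, e1]
  have h5 : 0 ≤ Real.log y / Real.log (Real.log y) := by positivity
  have z3 : 0 < Real.log (Real.log (Real.log z)) := by linarith
  gcongr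

lemma pow_loglog_mono {x y : ℝ} (hx : Real.exp (Real.exp 1) ≤ x) (hxy : x ≤ y) :
    x ^ (1 / Real.log (Real.log x)) ≤ y ^ (1 / Real.log (Real.log y)) := by
  have x0 : 0 < x := lt_of_lt_of_le (Real.exp_pos _) hx
  have y0 : 0 < y := by linarith
  have p1 : Real.exp 1 ≤ Real.log x := (Real.le_log_iff_exp_le x0).2 hx
  have p1' : 0 < Real.log x := lt_of_lt_of_le (Real.exp_pos _) p1
  have p2 : 1 ≤ Real.log (Real.log x) := (Real.le_log_iff_exp_le p1').2 p1
  have h1 : Real.log x ≤ Real.log y := Real.log_le_log x0 hxy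
  have h2 : Real.log (Real.log x) ≤ Real.log (Real.log y) := Real.log_le_log p1' h1
  have hlog := Real.log_div_self_antitoneOn (show Real.exp 1 ≤ Real.log x from p1) (show Real.exp 1 ≤ Real.log y by linarith) h1
  simp only at hlog
  rw [Real.rpow_def_of_pos x0, Real.rpow_def_of_pos y0]
  apply Real.exp_le_exp.2
  rw [div_le_div_iff₀ (by linarith) p1'] at hlog
  rw [mul_one_div, mul_one_div, div_le_div_iff₀ (by linarith) (by linarith)]
  linarith

/-- **Every sequence of run lengths occurs early.** -/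
theorem result (k : ℕ) (hk : 1 ≤ k) : ∃ t : ℕ, 1 ≤ t ∧ ∃ C : ℝ, 0 < C ∧ ∃ G₀ : ℕ, ∀ g : ℕ → ℕ, (∀ j < k, 1 ≤ g j) → Admissible g k →
    ∀ G : ℕ, G = ∑ j ∈ range k, g j → G₀ ≤ G → ∀ i ≤ k,
    (∃ n p : ℕ, p = n + ends g i ∧ p.Prime ∧ Real.log p ≤ C * Y G ∧ Runs t p (3 * G) g k i n) ∧
    ∀ X : ℝ, Real.exp (C * Y G) ≤ X →
      X ^ (98 / 100 : ℝ) ≤ (({n : ℕ | X < ((n + ends g i : ℕ) : ℝ) ∧ ((n + ends g i : ℕ) : ℝ) ≤ 3 * X ∧ (n + ends g i).Prime ∧
        Runs t X (3 * G) g k i n}.ncard : ℕ) : ℝ) := by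
  classical
  obtain ⟨t, ht, c, hc, X1, h1⟩ := growingT (k + 1) (by omega)
  obtain ⟨X2, h2⟩ := rough_omega t ht
  -- the choice of `X`
  obtain ⟨X3, hX3, hX31, hX32, hX33, hX34, hX35⟩ : ∃ X3 : ℝ, X3 = max (max X1 X2) (max ((3 : ℝ) ^ t) (Real.exp (Real.exp (Real.exp (Real.exp 1))))) ∧
      X1 ≤ X3 ∧ X2 ≤ X3 ∧ (3 : ℝ) ^ t ≤ X3 ∧ Real.exp (Real.exp (Real.exp (Real.exp 1))) ≤ X3 ∧ 3 ≤ X3 := by
    refine ⟨_, rfl, (le_max_left _ _).trans (le_max_left _ _), (le_max_right _ _).trans (le_max_left _ _),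
      (le_max_left _ _).trans (le_max_right _ _), (le_max_right _ _).trans (le_max_right _ _), ?_⟩
    refine le_trans ?_ ((le_max_left _ _).trans (le_max_right _ _))
    calc (3 : ℝ) = 3 ^ 1 := by norm_num
      _ ≤ 3 ^ t := pow_le_pow_right₀ (by norm_num) ht
  obtain ⟨G0, hG0⟩ := Pool.Agent.H226R2.ShanksGap.ana (c / 6) (by positivity) X3
  obtain ⟨C, hC⟩ : ∃ C : ℝ, C = 16 / (c / 6) := ⟨_, rfl⟩
  have hC0 : 0 < C := by rw [hC]; positivity
  -- all large X
  have key : ∀ g : ℕ → ℕ, (∀ j < k, 1 ≤ g j) → Admissible g k → ∀ G : ℕ, G = ∑ j ∈ range k, g j → G0 ≤ G → ∀ i ≤ k,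
      X3 ≤ Real.exp (C * Y G) ∧ ∀ X : ℝ, Real.exp (C * Y G) ≤ X →
      X ^ (98 / 100 : ℝ) ≤ (({n : ℕ | X < ((n + ends g i : ℕ) : ℝ) ∧ ((n + ends g i : ℕ) : ℝ) ≤ 3 * X ∧ (n + ends g i).Prime ∧
        Runs t X (3 * G) g k i n}.ncard : ℕ) : ℝ) := by
    intro g hg hadm G hG hGG i hi
    obtain ⟨a1, a2⟩ := hG0 G hGG
    have hCY : 16 / (c / 6) * (G : ℝ) * (Real.log (Real.log G)) ^ 2 / ((Real.log G) ^ 2 * Real.log (Real.log (Real.log G))) = C * Y G := by
      rw [hC]
      unfold Y
      ring
    rw [hCY] at a1 a2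
    refine ⟨a1, ?_⟩
    intro X hX
    have hy : Real.exp (Real.exp (Real.exp 1)) ≤ C * Y G := Real.exp_le_exp.1 (hX34.trans a1)
    have hXX : X3 ≤ X := a1.trans hX
    have hX0 : 0 < X := by linarith
    have hlogX : C * Y G ≤ Real.log X := (Real.le_log_iff_exp_le hX0).2 hX
    have hffX : ff (Real.exp (C * Y G)) ≤ ff X := by
      have := ff_exp_mono hy hlogX
      rwa [Real.exp_log hX0] at this
    have hG6 : 6 * (G : ℝ) ≤ c * ff X := by
      have e1 : ff (Real.exp (C * Y G)) = C * Y G * Real.log (C * Y G) ^ 2 * Real.log (Real.log (Real.log (C * Y G))) / Real.log (Real.log (C * Y G)) ^ 2 := by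
        unfold ff
        rw [Real.log_exp]
      rw [← e1] at a2
      have e2 : c / 6 * ff (Real.exp (C * Y G)) ≤ c / 6 * ff X := by gcongr
      linarith
    have hG0 : (0 : ℝ) ≤ G := Nat.cast_nonneg _
    obtain ⟨b1, b2, b3⟩ := h1 X (hX31.trans hXX)
    have hcard : ((range (k + 1)).image (ends g)).card = k + 1 := by
      rw [card_image_of_injective _ (ends_strictMono g).injective, card_range]
    have hends : ∀ j ≤ k, (ends g j : ℝ) ≤ 2 * G := by
      intro j hj
      have := ends_le g k hg j hj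
      rw [← hG] at this
      exact_mod_cast this
    have hle : ∀ h ∈ (range (k + 1)).image (ends g), (h : ℝ) ≤ c * ff X := by
      intro h hh
      rw [mem_image] at hh
      obtain ⟨j, hj, rfl⟩ := hh
      have := hends j (by rw [mem_range] at hj; omega)
      linarith
    have hmem : ∀ j ≤ k, ends g j ∈ (range (k + 1)).image (ends g) := fun j hj => mem_image_of_mem _ (by rw [mem_range]; omega)
    refine (b3 _ hcard hle (adm_iff hadm) (ends g i) (hmem i hi)).trans ?_
    rw [Nat.cast_le]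
    apply Set.ncard_le_ncard
    · rintro n ⟨c1, c2, c3, c4, c5⟩
      refine ⟨c1, c2, c3, ?_, ?_⟩
      · intro j hj
        have hhX := hends j hj
        have hhi := hends i hi
        have hn0 : 0 < n + ends g j := by
          rcases Nat.eq_zero_or_pos (n + ends g j) with h0 | h0
          · exfalso
            have hn : n = 0 := by omega
            rw [hn, zero_add] at c1
            linarith
          · exact h0
        refine ⟨hn0, h2 X (hX32.trans hXX) (n + ends g j) hn0 ?_ (c4 _ (hmem j hj)), ?_⟩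
        · have h3 : (n : ℝ) ≤ ((n + ends g i : ℕ) : ℝ) := by exact_mod_cast Nat.le_add_right n _
          push_cast
          linarith
        · intro q hq hd
          by_contra hcon
          exact c4 _ (hmem j hj) q hq (not_lt.1 hcon) hd
      · intro m hm hmj
        apply c5 m
        · have hhi := hends i hi
          have h0 : (0 : ℝ) ≤ ends g i := Nat.cast_nonneg _
          push_cast at hm
          rw [abs_le] at hm ⊢
          constructor <;> linarith [hm.1, hm.2]
        · intro h hh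
          rw [mem_image] at hh
          obtain ⟨j, hj, rfl⟩ := hh
          exact hmj j (by rw [mem_range] at hj; omega)
    · apply (Set.finite_Iic ⌊3 * X⌋₊).subset
      intro n hn
      apply Nat.le_floor
      refine le_trans ?_ hn.2.1
      exact_mod_cast Nat.le_add_right n _
  refine ⟨t + 1, by omega, 2 * C, by positivity, G0, ?_⟩
  intro g hg hadm G hG hGG i hi
  obtain ⟨a1, a2⟩ := key g hg hadm G hG hGG i hi
  have hX3p : 0 < X3 := by linarith
  have hy : Real.exp (Real.exp (Real.exp 1)) ≤ C * Y G := Real.exp_le_exp.1 (hX34.trans a1)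
  have hCYpos : 0 < C * Y G := lt_of_lt_of_le (Real.exp_pos _) hy
  have hlog3 : Real.log 3 ≤ C * Y G := by
    rw [Real.log_le_iff_le_exp (by norm_num)]
    linarith
  -- passing from `X` to `X ≤ Z ≤ 3 X` in the definition of `Runs`, and from `t` to `t + 1`
  have pass : ∀ X Z : ℝ, X3 ≤ X → X ≤ Z → Z ≤ 3 * X → ∀ n : ℕ, Runs t X (3 * G) g k i n → Runs (t + 1) Z (3 * G) g k i n := by
    intro X Z hX hXZ hZX n hn
    have hX0 : 0 < X := by linarith
    have hZ0 : 0 < Z := by linarith
    refine ⟨?_, ?_⟩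
    · intro j hj
      obtain ⟨e1, e2, e3⟩ := hn.1 j hj
      refine ⟨e1, by omega, ?_⟩
      intro q hq hqd
      refine lt_of_le_of_lt ?_ (e3 q hq hqd)
      have h3t : (3 : ℝ) ^ t ≤ X := hX33.trans hX
      have ht0 : (0 : ℝ) < t := by exact_mod_cast ht
      -- Z^(1/(t+1)) ≤ X^(1/t)
      have g1 : Z ^ (t : ℝ) ≤ X ^ ((t : ℝ) + 1) := by
        calc Z ^ (t : ℝ) ≤ (3 * X) ^ (t : ℝ) := by gcongr
          _ = 3 ^ t * X ^ (t : ℝ) := by
            rw [Real.mul_rpow (by norm_num) hX0.le, Real.rpow_natCast, Real.rpow_natCast]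
          _ ≤ X * X ^ (t : ℝ) := by gcongr
          _ = X ^ ((t : ℝ) + 1) := by rw [Real.rpow_add hX0, Real.rpow_one, mul_comm]
      have g2 : (Z ^ (t : ℝ)) ^ (1 / ((t : ℝ) * (t + 1))) ≤ (X ^ ((t : ℝ) + 1)) ^ (1 / ((t : ℝ) * (t + 1))) := by gcongr
      rw [← Real.rpow_mul hZ0.le, ← Real.rpow_mul hX0.le] at g2
      have g3 : (t : ℝ) * (1 / ((t : ℝ) * (t + 1))) = 1 / ((t + 1 : ℕ) : ℝ) := by
        push_cast
        field_simp
      have g4 : ((t : ℝ) + 1) * (1 / ((t : ℝ) * (t + 1))) = 1 / (t : ℝ) := by field_simp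
      rwa [g3, g4] at g2
    · intro m hm hmj
      obtain ⟨q, hq, hqX, hqd⟩ := hn.2 m hm hmj
      refine ⟨q, hq, hqX.trans ?_, hqd⟩
      apply pow_loglog_mono _ hXZ
      refine le_trans ?_ (hX34.trans hX)
      apply Real.exp_le_exp.2
      have e1 := Real.add_one_le_exp (1 : ℝ)
      have e2 := Real.add_one_le_exp (Real.exp 1)
      have e3 := Real.add_one_le_exp (Real.exp (Real.exp 1))
      linarith
  refine ⟨?_, ?_⟩
  · -- the first occurrence
    have h3 := a2 (Real.exp (C * Y G)) le_rfl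
    have hne : {n : ℕ | Real.exp (C * Y G) < ((n + ends g i : ℕ) : ℝ) ∧ ((n + ends g i : ℕ) : ℝ) ≤ 3 * Real.exp (C * Y G) ∧
        (n + ends g i).Prime ∧ Runs t (Real.exp (C * Y G)) (3 * G) g k i n}.Nonempty := by
      apply Set.nonempty_of_ncard_ne_zero
      intro h0
      rw [h0, Nat.cast_zero] at h3
      have : 0 < Real.exp (C * Y G) ^ (98 / 100 : ℝ) := by positivity
      linarith
    obtain ⟨n, d1, d2, d3, d4⟩ := hne
    refine ⟨n, n + ends g i, rfl, d3, ?_, pass _ _ a1 d1.le d2 n d4⟩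
    have hp0 : (0 : ℝ) < ((n + ends g i : ℕ) : ℝ) := by exact_mod_cast d3.pos
    have : Real.log ((n + ends g i : ℕ) : ℝ) ≤ Real.log (3 * Real.exp (C * Y G)) := Real.log_le_log hp0 d2
    rw [Real.log_mul (by norm_num) (Real.exp_pos _).ne', Real.log_exp] at this
    linarith
  · intro X hX
    have hXX : Real.exp (C * Y G) ≤ X := by
      refine le_trans ?_ hX
      apply Real.exp_le_exp.2
      linarith
    refine (a2 X hXX).trans ?_
    rw [Nat.cast_le]
    apply Set.ncard_le_ncard
    · rintro n ⟨d1, d2, d3, d4⟩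
      refine ⟨d1, d2, d3, pass X X (a1.trans hXX) le_rfl (by linarith) n d4⟩
    · apply (Set.finite_Iic ⌊3 * X⌋₊).subset
      intro n hn
      apply Nat.le_floor
      refine le_trans ?_ hn.2.1
      exact_mod_cast Nat.le_add_right n _

end Pool.Agent.Results.MP_926cc3_nt.ExactRunsEarly
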