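import Mathlib
import Pool.Agent.Q273.CG.Pad3

set_option autoImplicit false

/-!
# `p`-adic integers all of whose truncations lie in record prime gaps

Let `m_1 < m_2 < …` with `m_{n+1} ≥ (1 + δ) m_n`, `δ > 0` arbitrarily small. For a `p`-adic
integer `x` let `x mod p^m` be the natural number below `p^m` which is congruent to `x` (its
truncation to `m` digits, `PadicInt.appr` in Mathlib). In every ball of `ℤ_p` the set of the `x`
such that ALL the truncations `x mod p^(m_n)`, `n ≥ n₀`, lie in the middle of prime gaps of the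
record length `≥ c f(p^(m_n))` has Hausdorff dimension at least `1 - ε`, with `c` depending on
`ε` and `δ` only (not on `p`); it has dimension `1` if `c` may depend on `x`. Here
`f(x) = log x (log₂ x)² log₄ x / (log₃ x)²` is the record scale of the starting files.
-/

open Filter Topology

namespace Pool.Agent.Results.MP_926cc3_nt.PadicTruncations

/-- The record scale `f(x) = log x (log₂ x)² log₄ x / (log₃ x)²` (iterated natural logarithms). -/
noncomputable def f (x : ℝ) : ℝ :=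
  Real.log x * (Real.log (Real.log x)) ^ 2 * Real.log (Real.log (Real.log (Real.log x))) /
    (Real.log (Real.log (Real.log x))) ^ 2

/-- Every prime is at a distance greater than `H` from the real number `y`. -/
def Far (H y : ℝ) : Prop := ∀ q : ℕ, q.Prime → H < |(q : ℝ) - y|

/-- 1. relates `Far` to gaps between consecutive primes (`Nat.nth Nat.Prime m` is the prime with
index `m`, counted from `0`). 2. is the characterisation of the truncation `x.appr m`.
3. is the theorem with a uniform constant, 4. the version with a constant which depends on `x`. -/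
theorem result :
    (∀ H y : ℝ, 2 ≤ y → Far H y → ∃ m : ℕ,
      (Nat.nth Nat.Prime m : ℝ) ≤ y ∧ y ≤ (Nat.nth Nat.Prime (m + 1) : ℝ) ∧
      2 * H < (Nat.nth Nat.Prime (m + 1) : ℝ) - (Nat.nth Nat.Prime m : ℝ)) ∧
    (∀ (p : ℕ) [Fact p.Prime] (x : ℤ_[p]) (m : ℕ), x.appr m < p ^ m ∧
      (p : ℤ_[p]) ^ m ∣ x - (x.appr m : ℤ_[p])) ∧
    (∀ ε δ : ℝ, 0 < ε → ε < 1 → 0 < δ → ∃ c : ℝ, 0 < c ∧
      ∀ (p : ℕ) [Fact p.Prime] (m : ℕ → ℕ), (∀ n, 1 ≤ m n) → (∀ n, (1 + δ) * m n ≤ m (n + 1)) →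
      ∀ (a : ℤ_[p]) (l : ℕ), ENNReal.ofReal (1 - ε) ≤
        dimH {x : ℤ_[p] | ‖x - a‖ ≤ (p : ℝ) ^ (-(l : ℤ)) ∧
          ∀ᶠ n in atTop, Far (c * f ((p : ℝ) ^ m n)) (x.appr (m n))}) ∧
    (∀ δ : ℝ, 0 < δ → ∀ (p : ℕ) [Fact p.Prime] (m : ℕ → ℕ), (∀ n, 1 ≤ m n) →
      (∀ n, (1 + δ) * m n ≤ m (n + 1)) → ∀ (a : ℤ_[p]) (l : ℕ),
        dimH {x : ℤ_[p] | ‖x - a‖ ≤ (p : ℝ) ^ (-(l : ℤ)) ∧
          ∃ c : ℝ, 0 < c ∧ ∀ᶠ n in atTop, Far (c * f ((p : ℝ) ^ m n)) (x.appr (m n))} = 1) :=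
  ⟨fun _ _ hy h => Pool.Agent.Q273.CG.Far.gap hy h,
    fun p _ x m => ⟨PadicInt.appr_lt x m, Ideal.mem_span_singleton.1 (PadicInt.appr_spec m x)⟩,
    fun ε δ h0 h1 hδ => Pool.Agent.Q273.CG.padic_core ε δ h0 h1 hδ,
    fun δ hδ p _ m hm hmδ a l => Pool.Agent.Q273.CG.padic_one δ hδ p m hm hmδ a l⟩

end Pool.Agent.Results.MP_926cc3_nt.PadicTruncations
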