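import Pool.Agent.Q145.MT.TupPat

set_option autoImplicit false
set_option maxHeartbeats 4000000

/-! # Prime tuples with arbitrary prescribed prime-free sets of record size

The coloured Maynard-Tao theorem for ARBITRARY admissible `K`-tuples `t` of the range `[0, (log X)²]` (they may
depend on `X`), in which moreover ALL the primes of an ARBITRARY set `n + Z` are among the `n + t_j`. The set `Z` is
only restricted by `∑_(z ∈ Z) ∏_j w(z - t_j) ≤ c f(X)`, where `w(z) = |z| / φ(|z|)` and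
`f(X) = log X (log₂ X)² log₄ X / (log₃ X)²` is the order of the largest known prime gaps; so `Z` may be an interval of
record length, or all the primes, sums of two squares, values of polynomials, ... of a longer interval. The same holds
for all the rational multiples `(i / j) n`, `|i|, |j| ≤ J`, at once. -/

open Filter

namespace Pool.Agent.Results.MP_926cc3_nt.PrescribedPrimeFreeSets

/-- The record scale `f(x) = log x (log₂ x)² log₄ x / (log₃ x)²` (iterated natural logarithms). -/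
noncomputable def f (x : ℝ) : ℝ :=
  Real.log x * (Real.log (Real.log x)) ^ 2 * Real.log (Real.log (Real.log (Real.log x))) /
    (Real.log (Real.log (Real.log x))) ^ 2

/-- `w(z) = |z| / φ(|z|)` for `z ≠ 0`, and `w(0) = 0`. -/
noncomputable def w (z : ℤ) : ℝ := |(z : ℝ)| / (z.natAbs.totient : ℝ)

/-- There is `η > 0` and for every `m` there is `K ≥ m` such that for all `A`, `J` and squarefree `d` there is `c > 0`
such that for all large `X` the following holds. Let `t_1, …, t_K` be distinct integers of `[0, (log X)²]` such that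
for every prime `p` the `v + t_j` are prime to `p` for some `v`, let the `h + t_j` be prime to `d`, let the indices be
coloured with `m` colours, each used at least `K/(2m)` times, and let `Z` be a finite set of integers
`|z| ≤ log X (log log X)^A` such that `∑_(z ∈ Z) ∏_j w(z - i t_j) ≤ c f(X)` for all `1 ≤ |i| ≤ J`. Then for at least
`X^(9/10)` integers `n ≡ h (mod d)` of `(X, 3X]` at least `η m` of the colours contain an index `j` with `n + t_j`
prime, and for all `1 ≤ |i|, |j| ≤ J` every prime `q` with `j q - i n ∈ Z` is one of the `n + t_l`. -/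
theorem result : ∃ η : ℝ, 0 < η ∧ ∀ m : ℕ, 1 ≤ m → ∃ K : ℕ, m ≤ K ∧ ∀ (A J d : ℕ), Squarefree d →
    ∃ c : ℝ, 0 < c ∧ ∃ X₀ : ℝ, ∀ X : ℝ, X₀ ≤ X →
    ∀ t : Fin K → ℕ, Function.Injective t → (∀ j, (t j : ℝ) ≤ (Real.log X) ^ 2) →
    (∀ p : ℕ, p.Prime → ∃ v : ℕ, ∀ j, ¬ p ∣ v + t j) →
    ∀ h : ℕ, (∀ j, (h + t j).Coprime d) →
    ∀ col : Fin K → Fin m, (∀ e, K ≤ 2 * m * {j | col j = e}.ncard) →
    ∀ Z : Finset ℤ, (∀ z ∈ Z, |(z : ℝ)| ≤ Real.log X * (Real.log (Real.log X)) ^ A) →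
    (∀ i : ℤ, 1 ≤ |i| → |i| ≤ J → ∑ z ∈ Z, ∏ j, w (z - i * t j) ≤ c * f X) →
    X ^ (9 / 10 : ℝ) ≤ ({n : ℕ | X < n ∧ (n : ℝ) ≤ 3 * X ∧ n ≡ h [MOD d] ∧
      η * m ≤ ({e : Fin m | ∃ j, col j = e ∧ (n + t j).Prime}.ncard : ℝ) ∧
      ∀ i j : ℤ, 1 ≤ |i| → |i| ≤ J → 1 ≤ |j| → |j| ≤ J → ∀ q : ℕ, q.Prime →
        j * q - i * n ∈ Z → ∃ l, q = n + t l}.ncard : ℝ) := by
  classical
  obtain ⟨η, hη, H⟩ := Pool.Agent.Q145.MT.tuple_pattern_free
  refine ⟨η, hη, fun m hm => ?_⟩
  obtain ⟨K, hmK, HK⟩ := H m hm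
  refine ⟨K, hmK, fun A J d hd => ?_⟩
  obtain ⟨c, hc, hX⟩ := HK A J d hd
  obtain ⟨X₀, hX₀⟩ := eventually_atTop.1 hX
  refine ⟨c, hc, X₀, fun X hXX t htinj htl hadm h hh col hcol Z hZ hZw => ?_⟩
  set S := {n : ℕ | X < n ∧ (n : ℝ) ≤ 3 * X ∧ n ≡ h [MOD d] ∧
      η * m ≤ ({e : Fin m | ∃ j, col j = e ∧ (n + t j).Prime}.ncard : ℝ) ∧
      ∀ i j : ℤ, 1 ≤ |i| → |i| ≤ J → 1 ≤ |j| → |j| ≤ J → ∀ q : ℕ, q.Prime →
        j * q - i * n ∈ Z → ∃ l, q = n + t l} with hS
  have hfin : S.Finite := by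
    apply (Set.finite_Iic ⌊3 * X⌋₊).subset
    intro p hp
    exact Set.mem_Iic.2 (Nat.le_floor hp.2.1)
  by_contra hcon
  push Not at hcon
  rw [Set.ncard_eq_toFinset_card S hfin] at hcon
  obtain ⟨n, hXn, hn3, hnb, hnd, ⟨E, hE1, hE2⟩, hmain⟩ := hX₀ X hXX t htinj htl hadm h hh col
    (fun e => by
      have h1 : {j | col j = e}.ncard = Pool.Agent.H362R2.RQ.fib col e := by
        rw [Set.ncard_eq_toFinset_card']
        unfold Pool.Agent.H362R2.RQ.fib
        congr 1
        ext j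
        simp
      rw [← h1]
      exact hcol e) Z hZ
    (fun i hi1 hi2 => by
      refine le_trans (le_of_eq ?_) (hZw i hi1 hi2)
      apply Finset.sum_congr rfl
      intro z _
      unfold Pool.Agent.TH101.RG.wZ w
      apply Finset.prod_congr rfl
      intro j _
      rw [Nat.cast_natAbs, Int.cast_abs]) hfin.toFinset hcon.le
  apply hnb
  rw [Set.Finite.mem_toFinset]
  refine ⟨hXn, hn3, hnd, hE1.trans ?_, hmain⟩
  have h1 : (E : Set (Fin m)) ⊆ {e : Fin m | ∃ j, col j = e ∧ (n + t j).Prime} := fun e he => hE2 e he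
  have h2 := Set.ncard_le_ncard h1 (Set.toFinite _)
  rw [Set.ncard_coe_finset] at h2
  exact_mod_cast h2

end Pool.Agent.Results.MP_926cc3_nt.PrescribedPrimeFreeSets
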